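import Pool.Agent.TH107.AT.Cb4
import Pool.Agent.TH107.RF.Conv

set_option autoImplicit false

namespace Pool.Agent.Results.MP_585e9a_al.ArtinFiniteExtensions

/-- The Artin group of a finite Coxeter matrix; an entry `0` stands for the label infinity, that is,
for no relation. -/
abbrev ArtinGroup {n : ℕ} (M : CoxeterMatrix (Fin n)) : Type :=
  PresentedGroup
    {r : FreeGroup (Fin n) | ∃ i j : Fin n, M.M i j ≠ 0 ∧
      r = ((List.range (M.M i j)).map
              (fun k => if Even k then FreeGroup.of i else FreeGroup.of j)).prod *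
          (((List.range (M.M i j)).map
              (fun k => if Even k then FreeGroup.of j else FreeGroup.of i)).prod)⁻¹}

/-- The image of right multiplication by the matrix `A` on row vectors of length `m` over
`ℓ²(G)`. -/
def image {G : Type} [Group G] {m k : ℕ} (A : Matrix (Fin m) (Fin k) (G →₀ ℂ)) :
    Set (lp (fun _ : Fin k × G => ℂ) 2) :=
  {y | ∃ x : lp (fun _ : Fin m × G => ℂ) 2, ∀ (j : Fin k) (g : G),
    y (j, g) = ∑ i : Fin m, (A i j).sum (fun h c => x (i, g * h⁻¹) * c)}

open Classical in
/-- The von Neumann rank: the sum over `j` of one minus the squared distance from the basis vector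
at `(j, 1)` to the image, that is, the trace of the projection onto the closure of the image. -/
noncomputable def rank {G : Type} [Group G] {m k : ℕ} (A : Matrix (Fin m) (Fin k) (G →₀ ℂ)) : ℝ :=
  ∑ j : Fin k, (1 - (Metric.infDist
    (lp.single 2 (j, (1 : G)) (1 : ℂ) : lp (fun _ : Fin k × G => ℂ) 2) (image A)) ^ 2)

open Pool.Agent.H80R2.BC Pool.Agent.W656.VA Pool.Agent.H812R3 in
/-- rank and nullity -/
theorem rank_eq {G : Type} [Group G] {m k : ℕ} (A : Matrix (Fin m) (Fin k) (G →₀ ℂ)) :
    rank A = m - vdim (kerA (cv A)) := by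
  classical
  have h1 := vdim_rank (K := (⊤ : Submodule ℂ (L2 (Fin m × G)))) isClosed_univ
    (fun _ _ _ _ _ => trivial) (op (cv A)) (equi_op _)
  rw [vdim_top, top_inf_eq, ← kerA_eq, Fintype.card_fin] at h1
  have hact : ∀ (x : L2 (Fin m × G)) (j : Fin k) (g : G),
      act (cv A) x j g = ∑ i' : Fin m, (A i' j).sum (fun h c => x (i', g * h⁻¹) * c) := by
    intro x j g
    unfold act cv
    refine Finset.sum_congr rfl fun i _ => ?_
    rw [Finsupp.sum_mapDomain_index]
    · refine Finsupp.sum_congr fun h _ => ?_
      ring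
    · intro b; simp
    · intro b c e; ring
  have h2 : image A = ((⊤ : Submodule ℂ (L2 (Fin m × G))).map
      (op (cv A) : L2 (Fin m × G) →ₗ[ℂ] L2 (Fin k × G)) : Set (L2 (Fin k × G))) := by
    ext y
    constructor
    · rintro ⟨x, hx⟩
      refine ⟨x, trivial, ?_⟩
      ext ⟨j, g⟩
      change op (cv A) x (j, g) = y (j, g)
      rw [op_apply, hact, hx]
    · rintro ⟨x, -, rfl⟩
      refine ⟨x, fun j g => ?_⟩
      change op (cv A) x (j, g) = _
      rw [op_apply, hact]
  have h3 : rank A = vdim ((⊤ : Submodule ℂ (L2 (Fin m × G))).map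
      (op (cv A) : L2 (Fin m × G) →ₗ[ℂ] L2 (Fin k × G))).topologicalClosure := by
    unfold rank vdim
    rw [h2]
    refine Finset.sum_congr rfl fun i _ => ?_
    rw [Submodule.topologicalClosure_coe, Metric.infDist_closure, dl_eq]
    unfold de
    rw [← KP.dl_eq_single]
  rw [h3]
  linarith

/-- Let `M` be a Coxeter matrix such that no three distinct generators `i, j, k` have `m_ij` and
`m_jk` finite and at least three and `m_ik` finite, and let `π` be the homomorphism from the Artin
group to the Coxeter group, whose kernel is the pure Artin group.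

1. If a subgroup `H` of finite index in a group `G` embeds in the pure Artin group, then
   `[G : H] · rank A` is an integer for every matrix `A` over the complex group ring of `G`.
2. Suppose that the generators fall into classes (the values of `κ`) such that two generators of the
   same class have label `l` or infinity, where `l` is at least three, and two generators of
   different classes have label two or infinity. If a subgroup `H` of finite index in a group `G`
   embeds in the Artin group, then `[G : H] · rank A` is an integer for every matrix `A` over the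
   complex group ring of `G`. -/
theorem result : ∀ (s : ℕ) (M : CoxeterMatrix (Fin s)),
    (∀ i j k : Fin s, i ≠ k → 3 ≤ M.M i j → 3 ≤ M.M j k → M.M i k = 0) →
    (∃ π : ArtinGroup M →* M.Group, (∀ i : Fin s, π (PresentedGroup.of i) = M.simple i) ∧
      ∀ (G : Type) [Group G] (H : Subgroup G) (f : H →* π.ker), H.FiniteIndex →
        Function.Injective f → ∀ (m k : ℕ) (A : Matrix (Fin m) (Fin k) (G →₀ ℂ)),
          ∃ z : ℤ, (H.index : ℝ) * rank A = z) ∧
    ∀ (κ : Fin s → ℕ) (l : ℕ), 3 ≤ l →
      (∀ i j, i ≠ j → κ i = κ j → M.M i j = 0 ∨ M.M i j = l) →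
      (∀ i j, κ i ≠ κ j → M.M i j = 0 ∨ M.M i j = 2) →
      ∀ (G : Type) [Group G] (H : Subgroup G) (f : H →* ArtinGroup M), H.FiniteIndex →
        Function.Injective f → ∀ (m k : ℕ) (A : Matrix (Fin m) (Fin k) (G →₀ ℂ)),
          ∃ z : ℤ, (H.index : ℝ) * rank A = z := by
  intro s M hR
  have key : ∀ R : Set (FreeGroup (Fin s)), R = Pool.Agent.TH107.RF.rels M →
      (∃ π : PresentedGroup R →* M.Group, (∀ i : Fin s, π (PresentedGroup.of i) = M.simple i) ∧
        ∀ (G : Type) [Group G] (H : Subgroup G) (f : H →* π.ker), H.FiniteIndex →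
          Function.Injective f → ∀ (m k : ℕ) (A : Matrix (Fin m) (Fin k) (G →₀ ℂ)),
            ∃ z : ℤ, (H.index : ℝ) * rank A = z) ∧
      ∀ (κ : Fin s → ℕ) (l : ℕ), 3 ≤ l →
        (∀ i j, i ≠ j → κ i = κ j → M.M i j = 0 ∨ M.M i j = l) →
        (∀ i j, κ i ≠ κ j → M.M i j = 0 ∨ M.M i j = 2) →
        ∀ (G : Type) [Group G] (H : Subgroup G) (f : H →* PresentedGroup R), H.FiniteIndex →
          Function.Injective f → ∀ (m k : ℕ) (A : Matrix (Fin m) (Fin k) (G →₀ ℂ)),
            ∃ z : ℤ, (H.index : ℝ) * rank A = z := by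
    rintro R rfl
    refine ⟨⟨Pool.Agent.TH107.RF.toCox M, fun i => Pool.Agent.TH107.RF.toCox_sg M i, ?_⟩, ?_⟩
    · intro G _ H f hH hf m k A
      have hfin : Finite (G ⧸ H) := Subgroup.finite_quotient_of_finiteIndex
      have hCA : Pool.Agent.TH107.AT.CA H :=
        ⟨Fin s, inferInstance, inferInstance, M, hR,
          (Pool.Agent.TH107.RF.toCox M).ker.subtype.comp f, Subtype.val_injective.comp hf,
          fun g => (f g).2⟩
      obtain ⟨z, hz⟩ := Pool.Agent.TH107.AT.CA.dim_fi H hCA (Pool.Agent.W656.VA.cv A)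
      refine ⟨H.index * m - z, ?_⟩
      rw [rank_eq, mul_sub, hz]
      push_cast
      ring
    · intro κ l hl hin hout G _ H f hH hf m k A
      have hfin : Finite (G ⧸ H) := Subgroup.finite_quotient_of_finiteIndex
      have hCB : Pool.Agent.TH107.AT.CB l H :=
        ⟨Fin s, inferInstance, inferInstance, ℕ, inferInstance, M, κ, hR, hin, hout, f, hf⟩
      obtain ⟨z, hz⟩ := Pool.Agent.TH107.AT.CB.dim_fi hl H hCB (Pool.Agent.W656.VA.cv A)
      refine ⟨H.index * m - z, ?_⟩
      rw [rank_eq, mul_sub, hz]
      push_cast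
      ring
  exact key _ (Pool.Agent.TH107.RF.rels_eq M)

end Pool.Agent.Results.MP_585e9a_al.ArtinFiniteExtensions
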